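import Mathlib
import Pool.Agent.L0h42.PP.P12

/-!
# Clusters of solutions of the totient system

The conjecture asks for one integer `x` with `φ(n - x) + 1 = n - x`, `φ(n + x) + 1 = n + x`, for every `n ≥ 2`.

(1) For every `m` there is `C` such that for almost all `n` there are many `m + 1`-tuples of solutions at bounded distance:
for a set `D` of `m` integers in `[1, C]` at least `n / (log n) ^ E` integers `x` are such that `x` and all `x + d`,
`d ∈ D`, are solutions for `n`. In other words, for almost all even integers `2 n` there are many primes `p` such that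
`2 n = p + q = (p + d) + (q - d)`, `d ∈ D`, are `m + 1` Goldbach representations.

(2) For every `m` there is `k` such that for all integers `u_i`, `v_i`, `i ≤ k`, with distinct `u_i + v_i` and distinct
`u_i - v_i`, and for almost all `n` without local obstruction, there are `m` indices `i` such that at least
`n / (log n) ^ E` integers `x` are such that each of the `x + v_i` is a solution for `n + u_i`.

Proof: `Pool/Agent/L0h42/PP`.
-/

set_option autoImplicit false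

namespace Pool.Agent.Results.MP_967f73_nt.ClustersOfSolutions

open Finset

/-- `x` is an integral solution of the system for `n`: `a = n - x` and `b = n + x` are positive, with
`φ(a) + 1 = a` and `φ(b) + 1 = b`. -/
def IsSol (n x : ℤ) : Prop :=
  ∃ a b : ℕ, (a : ℤ) = n - x ∧ (b : ℤ) = n + x ∧ 1 ≤ a ∧ 1 ≤ b ∧ Nat.totient a + 1 = a ∧ Nat.totient b + 1 = b

/-- The integers `x` such that `x` and all `x + d`, `d ∈ D`, are solutions for `n`, with `n + x ≤ n / Q`. -/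
def cluster (Q : ℕ) (D : Finset ℕ) (n : ℕ) : Set ℤ :=
  {x | (Q : ℤ) * (n + x) ≤ n ∧ ∀ d ∈ insert 0 D, IsSol n (x + (d : ℕ))}

/-- For some set `D` of `m` multiples of `M` in `[1, C]` there are at least `n / (log n) ^ E` of these `x`. -/
def Clustered (m M Q C E n : ℕ) : Prop :=
  ∃ D ⊆ Icc 1 C, D.card = m ∧ (∀ d ∈ D, M ∣ d) ∧ (n : ℝ) / Real.log n ^ E ≤ ((cluster Q D n).ncard : ℝ)

/-- The integers `x` such that, for all `i ∈ I`, `x + v_i` is a solution for `n + u_i`, with `n + x ≤ n / Q`. -/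
def common {k : ℕ} (u v : Fin k → ℤ) (Q : ℕ) (I : Finset (Fin k)) (n : ℕ) : Set ℤ :=
  {x | (Q : ℤ) * (n + x) ≤ n ∧ ∀ i ∈ I, IsSol (n + u i) (x + v i)}

/-- For some set `I` of `m` indices there are at least `n / (log n) ^ E` of these `x`. -/
def Common {k : ℕ} (u v : Fin k → ℤ) (m Q E n : ℕ) : Prop :=
  ∃ I : Finset (Fin k), I.card = m ∧ (n : ℝ) / Real.log n ^ E ≤ ((common u v Q I n).ncard : ℝ)

/-- No local obstruction: for every prime `p` there is `x` such that none of the `2 k` numbers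
`(n + u_i) - (x + v_i)`, `(n + u_i) + (x + v_i)` is divisible by `p`. -/
def NoFixed {k : ℕ} (u v : Fin k → ℤ) (n : ℕ) : Prop :=
  ∀ p : ℕ, p.Prime → ∃ x : ℤ, ∀ i, ¬ (p : ℤ) ∣ (n + u i) - (x + v i) ∧ ¬ (p : ℤ) ∣ (n + u i) + (x + v i)

lemma tot_prime {p : ℕ} (hp : p.Prime) : Nat.totient p + 1 = p := by
  rw [Nat.totient_prime hp]
  have := hp.pos
  omega

lemma sol_of {n x : ℤ} {a b : ℕ} (ha : (a : ℤ) = n - x) (hb : (b : ℤ) = n + x) (h1 : a.Prime) (h2 : b.Prime) : IsSol n x :=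
  ⟨a, b, ha, hb, h1.pos, h2.pos, tot_prime h1, tot_prime h2⟩

lemma finite_of {S : Set ℤ} {n y : ℤ} (h : ∀ x ∈ S, IsSol n (x + y)) : S.Finite := by
  apply (Set.finite_Icc (-n - y) (n - y)).subset
  intro x hx
  obtain ⟨a, b, ha, hb, ha1, hb1, _⟩ := h x hx
  rw [Set.mem_Icc]
  omega

open Pool.Agent.L0h42.PP in
lemma Pt_le (Q : ℕ) (D : Finset ℕ) (n : ℕ) : (Pt (-1) (2 * Q) D (2 * n)).card ≤ (cluster Q D n).ncard := by
  classical
  have h1 : ((Pt (-1) (2 * Q) D (2 * n)).image (fun p : ℕ => (p : ℤ) - n)).card = (Pt (-1) (2 * Q) D (2 * n)).card := by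
    apply card_image_of_injective
    intro p q hpq
    simp only at hpq
    omega
  rw [← h1, ← Set.ncard_coe_finset]
  have hfin : (cluster Q D n).Finite := by
    apply finite_of (n := n) (y := ((0 : ℕ) : ℤ))
    intro x hx
    exact hx.2 0 (mem_insert_self _ _)
  apply Set.ncard_le_ncard _ hfin
  intro x hx
  rw [mem_coe, mem_image] at hx
  obtain ⟨p, hp, rfl⟩ := hx
  unfold Pt at hp
  rw [mem_filter, mem_Icc] at hp
  obtain ⟨⟨hp1, hp2⟩, hp3, hp4⟩ := hp
  refine ⟨?_, fun d hd => ?_⟩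
  · have h2 : Q * p ≤ n := by
      have e1 : 2 * Q * p = 2 * (Q * p) := by ring
      omega
    have e2 : (Q : ℤ) * ((n : ℤ) + ((p : ℤ) - n)) = ((Q * p : ℕ) : ℤ) := by push_cast; ring
    rw [e2]
    exact_mod_cast h2
  · obtain ⟨h3, h4⟩ := hp4 d hd
    have h5 := h4.pos
    refine sol_of (a := (((2 * n : ℕ) : ℤ) + (-1) * ((p + d : ℕ) : ℤ)).toNat) (b := p + d) ?_ ?_ h4 h3
    · push_cast at h5 ⊢
      omega
    · push_cast
      ring

/-- passage from `2 n` to `n` -/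
lemma log_two (E : ℕ) : ∃ n0 : ℕ, ∀ n : ℕ, n0 ≤ n → (n : ℝ) / Real.log n ^ (E + 1) ≤ ((2 * n : ℕ) : ℝ) / Real.log ((2 * n : ℕ) : ℝ) ^ E := by
  obtain ⟨n1, h1⟩ := Pool.Agent.H373R2.T7.ev_L' (2 ^ E + 1)
  refine ⟨max n1 3, fun n hn => ?_⟩
  have hn5 : n1 ≤ n := le_trans (le_max_left _ _) hn
  have hn6 : 3 ≤ n := le_trans (le_max_right _ _) hn
  have b1 := h1 n hn5
  have hp : (1 : ℝ) ≤ 2 ^ E := one_le_pow₀ (by norm_num)
  have hL0 : 0 < Real.log n := by linarith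
  have hnr : (3 : ℝ) ≤ n := by exact_mod_cast hn6
  have g1 : Real.log ((2 * n : ℕ) : ℝ) ≤ 2 * Real.log n := by
    have : ((2 * n : ℕ) : ℝ) ≤ (n : ℝ) ^ 2 := by push_cast; nlinarith
    have h9 := Real.log_le_log (by push_cast; linarith) this
    rw [Real.log_pow] at h9
    exact_mod_cast h9
  have g0 : 0 < Real.log ((2 * n : ℕ) : ℝ) := by
    apply Real.log_pos
    push_cast
    linarith
  have g2 : Real.log ((2 * n : ℕ) : ℝ) ^ E ≤ (2 * Real.log n) ^ E := pow_le_pow_left₀ g0.le g1 E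
  rw [div_le_div_iff₀ (by positivity) (by positivity)]
  push_cast at g2 ⊢
  calc (n : ℝ) * Real.log (2 * n) ^ E ≤ n * (2 * Real.log n) ^ E := mul_le_mul_of_nonneg_left g2 (by linarith)
    _ = n * (2 ^ E * Real.log n ^ E) := by rw [mul_pow]
    _ ≤ n * (Real.log n * Real.log n ^ E) := by
        apply mul_le_mul_of_nonneg_left _ (by linarith)
        apply mul_le_mul_of_nonneg_right _ (by positivity)
        linarith
    _ = 1 * n * Real.log n ^ (E + 1) := by ring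
    _ ≤ 2 * n * Real.log n ^ (E + 1) := by gcongr; norm_num

open Classical in
theorem clusters (m M : ℕ) (hM : 1 ≤ M) : ∃ C : ℕ, ∀ Q : ℕ, 1 ≤ Q → ∀ ε : ℝ, 0 < ε → ∃ E N₀ : ℕ, ∀ N : ℕ, N₀ ≤ N →
    (((Icc 1 N).filter (fun n : ℕ => ¬ Clustered m M Q C E n)).card : ℝ) ≤ ε * N := by
  obtain ⟨C, h⟩ := Pool.Agent.L0h42.PP.pat (-1) (Or.inr rfl) m M hM
  refine ⟨C, fun Q hQ ε hε => ?_⟩
  obtain ⟨E, N0, h0⟩ := h (2 * Q) (by omega) (ε / 4) (by positivity)
  obtain ⟨n0, hn0⟩ := log_two E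
  refine ⟨E + 1, max N0 ⌈2 * n0 / ε⌉₊, fun N hN => ?_⟩
  have hN1 : N0 ≤ N := le_trans (le_max_left _ _) hN
  have hNn : 2 * (n0 : ℝ) / ε ≤ N := (Nat.le_ceil _).trans (by exact_mod_cast le_trans (le_max_right _ _) hN)
  have key := h0 (2 * N) (by omega)
  have hsub : ((Icc 1 N).filter (fun n : ℕ => ¬ Clustered m M Q C (E + 1) n)).card ≤
      n0 + ((Icc 1 (2 * N)).filter (fun n => Even n ∧ ¬ Pool.Agent.L0h42.PP.PtE (-1) (2 * Q) m M C E n)).card := by
    have e1 : (range n0).card = n0 := card_range n0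
    rw [← e1]
    refine le_trans ?_ (add_le_add le_rfl (card_image_le
      (s := ((Icc 1 (2 * N)).filter (fun n => Even n ∧ ¬ Pool.Agent.L0h42.PP.PtE (-1) (2 * Q) m M C E n)))
      (f := fun n => n / 2)))
    refine le_trans (card_le_card ?_) (card_union_le _ _)
    intro n hn
    rw [mem_filter, mem_Icc] at hn
    obtain ⟨⟨hn1, hn2⟩, hn3⟩ := hn
    rw [mem_union, mem_range, mem_image]
    by_cases hn4 : n < n0
    · exact Or.inl hn4
    · right
      refine ⟨2 * n, ?_, by omega⟩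
      rw [mem_filter, mem_Icc]
      refine ⟨⟨by omega, by omega⟩, even_two_mul n, ?_⟩
      rintro ⟨D, hD1, hD2, hD3, hD4⟩
      exact hn3 ⟨D, hD1, hD2, hD3, (hn0 n (by omega)).trans (hD4.trans (Nat.cast_le.2 (Pt_le Q D n)))⟩
  have h2 : (((Icc 1 N).filter (fun n : ℕ => ¬ Clustered m M Q C (E + 1) n)).card : ℝ) ≤
      n0 + (((Icc 1 (2 * N)).filter (fun n => Even n ∧ ¬ Pool.Agent.L0h42.PP.PtE (-1) (2 * Q) m M C E n)).card : ℝ) := by
    exact_mod_cast hsub
  push_cast at key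
  rw [div_le_iff₀ hε] at hNn
  linarith

open Pool.Agent.L0h42.PP in
lemma Rp_le {k : ℕ} (u v : Fin k → ℤ) (Q : ℕ) (I : Finset (Fin k)) (hI : I.Nonempty) (n : ℕ) :
    (Rp Q (Polynomial.C (-1) * Polynomial.X) 1 2 (fun i => u i + v i) (fun i => u i - v i) I n).card ≤
      (common u v Q I n).ncard := by
  classical
  obtain ⟨R, hR⟩ : ∃ R, R = Rp Q (Polynomial.C (-1) * Polynomial.X) 1 2 (fun i => u i + v i) (fun i => u i - v i) I n := ⟨_, rfl⟩
  rw [← hR]
  have h1 : (R.image (fun p : ℕ => (p : ℤ) - n)).card = R.card := by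
    apply card_image_of_injective
    intro p q hpq
    simp only at hpq
    omega
  rw [← h1, ← Set.ncard_coe_finset]
  obtain ⟨i₀, hi₀⟩ := hI
  have hfin : (common u v Q I n).Finite := by
    apply finite_of (n := n + u i₀) (y := v i₀)
    intro x hx
    exact hx.2 i₀ hi₀
  apply Set.ncard_le_ncard _ hfin
  intro x hx
  rw [mem_coe, mem_image] at hx
  obtain ⟨p, hp, rfl⟩ := hx
  rw [hR] at hp
  unfold Rp at hp
  rw [mem_filter, mem_Icc, pow_one] at hp
  obtain ⟨⟨hp1, hp2⟩, hp3, hp4⟩ := hp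
  refine ⟨?_, fun i hi => ?_⟩
  · have e2 : (Q : ℤ) * ((n : ℤ) + ((p : ℤ) - n)) = ((Q * p : ℕ) : ℤ) := by push_cast; ring
    rw [e2]
    exact_mod_cast hp3
  · obtain ⟨h3', h4'⟩ := hp4 i hi
    have h3 : ((p : ℤ) + (u i + v i)).toNat.Prime := h3'
    have h4 : (2 * (n : ℤ) + -1 * (p : ℤ) + (u i - v i)).toNat.Prime := by
      rw [Polynomial.eval_mul, Polynomial.eval_C, Polynomial.eval_X] at h4'
      exact_mod_cast h4'
    have h5 := h4.pos
    have h6 := h3.pos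
    refine sol_of (a := (2 * (n : ℤ) + -1 * (p : ℤ) + (u i - v i)).toNat) (b := ((p : ℤ) + (u i + v i)).toNat) ?_ ?_ h4 h3
    · omega
    · omega

open Classical in
theorem commons (m : ℕ) (hm : 1 ≤ m) : ∃ k : ℕ, ∀ u v : Fin k → ℤ, Function.Injective (fun i => u i + v i) →
    Function.Injective (fun i => u i - v i) → ∀ Q : ℕ, 1 ≤ Q → ∀ ε : ℝ, 0 < ε → ∃ E N₀ : ℕ, ∀ N : ℕ, N₀ ≤ N →
    (((Icc 1 N).filter (fun n : ℕ => NoFixed u v n ∧ ¬ Common u v m Q E n)).card : ℝ) ≤ ε * N := by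
  obtain ⟨k, hk, hA⟩ := Pool.Agent.L0h42.PP.thm_A m 1 hm le_rfl
  refine ⟨k, fun u v hu hv Q hQ ε hε => ?_⟩
  obtain ⟨E, N0, h0⟩ := hA (Polynomial.C (-1) * Polynomial.X) (Polynomial.natDegree_C_mul_X _ (by norm_num)) Q 2 hQ
    (by norm_num) (fun i => u i + v i) (fun i => u i - v i) hu hv ε hε
  refine ⟨E, N0, fun N hN => le_trans (Nat.cast_le.2 (card_le_card ?_)) (h0 N hN)⟩
  intro n hn
  rw [mem_filter] at hn ⊢
  refine ⟨hn.1, fun p hp => ?_, ?_⟩
  · obtain ⟨x, hx⟩ := hn.2.1 p hp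
    refine ⟨x + n, fun i => ⟨fun hd => (hx i).2 ?_, fun hd => (hx i).1 ?_⟩⟩
    · have e1 : (n : ℤ) + u i + (x + v i) = x + n + (u i + v i) := by ring
      rw [e1]
      exact hd
    · rw [Polynomial.eval_mul, Polynomial.eval_C, Polynomial.eval_X] at hd
      have e1 : (n : ℤ) + u i - (x + v i) = ((2 : ℕ) : ℤ) * n + -1 * (x + n) + (u i - v i) := by push_cast; ring
      rw [e1]
      exact hd
  · rintro ⟨I, hI1, hI2⟩
    apply hn.2.2
    refine ⟨I, hI1, ?_⟩
    have e0 : (n : ℝ) ^ (1 / ((1 : ℕ) : ℝ)) = n := by norm_num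
    rw [e0] at hI2
    exact hI2.trans (Nat.cast_le.2 (Rp_le u v Q I (card_pos.1 (by omega)) n))

open Classical in
/-- (1) Almost all `n` have, for a set `D` of `m` multiples of `M` in `[1, C]`, many `x` such that `x` and all `x + d`,
`d ∈ D`, are solutions for `n`. (2) For given `k` pairs `(u_i, v_i)`, almost all `n` without local obstruction have, for
some set of `m` indices `i`, many `x` such that each of the `x + v_i` is a solution for `n + u_i`. -/
theorem result :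
    (∀ m M : ℕ, 1 ≤ M → ∃ C : ℕ, ∀ Q : ℕ, 1 ≤ Q → ∀ ε : ℝ, 0 < ε → ∃ E N₀ : ℕ, ∀ N : ℕ, N₀ ≤ N →
      (((Icc 1 N).filter (fun n : ℕ => ¬ Clustered m M Q C E n)).card : ℝ) ≤ ε * N) ∧
    (∀ m : ℕ, 1 ≤ m → ∃ k : ℕ, ∀ u v : Fin k → ℤ, Function.Injective (fun i => u i + v i) →
      Function.Injective (fun i => u i - v i) → ∀ Q : ℕ, 1 ≤ Q → ∀ ε : ℝ, 0 < ε → ∃ E N₀ : ℕ, ∀ N : ℕ, N₀ ≤ N →
      (((Icc 1 N).filter (fun n : ℕ => NoFixed u v n ∧ ¬ Common u v m Q E n)).card : ℝ) ≤ ε * N) :=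
  ⟨clusters, commons⟩

end Pool.Agent.Results.MP_967f73_nt.ClustersOfSolutions
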