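import Pool.Agent.L0h42.CP.C9

/-!
# One `x` which solves the totient system for many `n` at once

For almost all `n` the system `φ(n - x) + 1 = n - x`, `φ(n + x) + 1 = n + x` has solutions `x` which at the
same time solve the system for `m` further integers `n + d` at bounded distance: the pairs of primes
`p = n - x`, `q = n + x` with `p + q = 2 n` start the same pattern of primes, `p + d` and `q + d`, `d ∈ D`.
More precisely, for given `m`, the proportion of the `n` without such solutions with `D` in `[1, C]` is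
`O(1 / C)`, and there are at least `n / (log n) ^ E` of these `x`.
-/

set_option autoImplicit false

namespace Pool.Agent.Results.MP_967f73_nt.SimultaneousSolutions

open Finset

/-- `x` is an integral solution of the system for `n`: `a = n - x` and `b = n + x` are positive, with
`φ(a) + 1 = a` and `φ(b) + 1 = b`. -/
def IsSol (n : ℕ) (x : ℤ) : Prop :=
  ∃ a b : ℕ, (a : ℤ) = n - x ∧ (b : ℤ) = n + x ∧ 1 ≤ a ∧ 1 ≤ b ∧ Nat.totient a + 1 = a ∧ Nat.totient b + 1 = b

/-- The integers `x` which are a solution for `n` and also a solution for every `n + d`, `d ∈ D`. -/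
def common (D : Finset ℕ) (n : ℕ) : Set ℤ := {x | IsSol n x ∧ ∀ d ∈ D, IsSol (n + d) x}

/-- For some set `D` of `m` integers in `[1, C]` at least `n / (log n) ^ E` integers `x` are a solution for `n`
and for all `n + d`, `d ∈ D`. -/
def Rich (m C E n : ℕ) : Prop :=
  ∃ D ⊆ Icc 1 C, D.card = m ∧ (n : ℝ) / Real.log n ^ E ≤ ((common D n).ncard : ℝ)

lemma tot_prime {p : ℕ} (hp : p.Prime) : Nat.totient p + 1 = p := by
  rw [Nat.totient_prime hp]
  have := hp.pos
  omega

lemma common_finite (D : Finset ℕ) (n : ℕ) : (common D n).Finite := by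
  apply (Set.finite_Icc (-(n : ℤ)) n).subset
  rintro x ⟨⟨a, b, ha, hb, ha1, hb1, _⟩, _⟩
  rw [Set.mem_Icc]
  omega

open Pool.Agent.L0h42.CP in
lemma reps_le (D : Finset ℕ) (n : ℕ) : (reps D (2 * n)).card ≤ (common D n).ncard := by
  classical
  have h1 : ((reps D (2 * n)).image (fun p : ℕ => (n : ℤ) - p)).card = (reps D (2 * n)).card := by
    apply card_image_of_injective
    intro p q hpq
    simp only at hpq
    omega
  rw [← h1, ← Set.ncard_coe_finset]
  apply Set.ncard_le_ncard _ (common_finite D n)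
  intro x hx
  rw [mem_coe, mem_image] at hx
  obtain ⟨p, hp, rfl⟩ := hx
  unfold reps at hp
  rw [mem_filter, mem_Icc] at hp
  obtain ⟨⟨hp1, hp2⟩, hp3, hp4, hp5⟩ := hp
  refine ⟨⟨p, 2 * n - p, by omega, by omega, hp1, hp4.pos, tot_prime hp3, tot_prime hp4⟩, fun d hd => ?_⟩
  obtain ⟨h6, h7⟩ := hp5 d hd
  refine ⟨p + d, 2 * n - p + d, by push_cast; omega, ?_, by omega, h7.pos, tot_prime h6, tot_prime h7⟩
  rw [Nat.cast_add, Nat.cast_sub hp2]
  push_cast
  ring

open Classical in
/-- **Simultaneous solutions.** For every `m` there is `κ` such that for every `C ≥ 1` there is `E` with the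
following property. For large `X`, for all but at most `(κ / C) X` of the `n ≤ X` there is a set `D` of `m`
integers `1 ≤ d ≤ C` such that at least `n / (log n) ^ E` integers `x` solve the system for `n` and for all
`n + d`, `d ∈ D`. -/
theorem result (m : ℕ) : ∃ κ : ℝ, ∀ C : ℕ, 1 ≤ C → ∃ E X₀ : ℕ, ∀ X : ℕ, X₀ ≤ X →
    (((Icc 1 X).filter (fun n : ℕ => ¬ Rich m C E n)).card : ℝ) ≤ κ / C * X := by
  obtain ⟨κ, hκ0, h⟩ := Pool.Agent.L0h42.CP.exact_pattern m
  refine ⟨2 * κ + 1, fun C hC => ?_⟩
  obtain ⟨E, X0, hX⟩ := h C hC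
  obtain ⟨n1, h1⟩ := Pool.Agent.H373R2.T7.ev_L' (2 ^ E + 1)
  obtain ⟨n0, hn0⟩ : ∃ n0, n0 = max n1 3 := ⟨_, rfl⟩
  refine ⟨E + 1, max X0 (C * n0), fun X hX1 => ?_⟩
  have hX2 : X0 ≤ X := le_trans (le_max_left _ _) hX1
  have hX3 : C * n0 ≤ X := le_trans (le_max_right _ _) hX1
  have hCr : (1 : ℝ) ≤ C := by exact_mod_cast hC
  have key := hX (2 * X) (by omega)
  have hsub : ((Icc 1 X).filter (fun n : ℕ => ¬ Rich m C (E + 1) n)).card ≤
      n0 + ((Icc 1 (2 * X)).filter (fun n => Even n ∧ ¬ Pool.Agent.L0h42.CP.PG m C E n)).card := by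
    have e1 : (range n0).card = n0 := card_range n0
    rw [← e1]
    refine le_trans ?_ (add_le_add le_rfl (card_image_le (s := ((Icc 1 (2 * X)).filter (fun n => Even n ∧ ¬ Pool.Agent.L0h42.CP.PG m C E n)))
      (f := fun n => n / 2)))
    refine le_trans (card_le_card ?_) (card_union_le _ _)
    intro n hn
    rw [mem_filter, mem_Icc] at hn
    obtain ⟨⟨hn1, hn2⟩, hn3⟩ := hn
    rw [mem_union, mem_range, mem_image]
    by_cases hn4 : n < n0
    · exact Or.inl hn4
    · right
      refine ⟨2 * n, ?_, by omega⟩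
      rw [mem_filter, mem_Icc]
      refine ⟨⟨by omega, by omega⟩, even_two_mul n, ?_⟩
      rintro ⟨D, hD1, hD2, hD3⟩
      apply hn3
      refine ⟨D, hD1, hD2, ?_⟩
      have hn5 : n1 ≤ n := le_trans (le_max_left _ _) (by rw [← hn0]; omega)
      have hn6 : 3 ≤ n := le_trans (le_max_right _ _) (by rw [← hn0]; omega)
      have b1 := h1 n hn5
      have hp : (1 : ℝ) ≤ 2 ^ E := one_le_pow₀ (by norm_num)
      have hL0 : 0 < Real.log n := by linarith
      have hnr : (3 : ℝ) ≤ n := by exact_mod_cast hn6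
      have g1 : Real.log ((2 * n : ℕ) : ℝ) ≤ 2 * Real.log n := by
        have : ((2 * n : ℕ) : ℝ) ≤ (n : ℝ) ^ 2 := by push_cast; nlinarith
        have h9 := Real.log_le_log (by push_cast; linarith) this
        rw [Real.log_pow] at h9
        exact_mod_cast h9
      have g0 : 0 < Real.log ((2 * n : ℕ) : ℝ) := by
        apply Real.log_pos
        push_cast
        linarith
      have g2 : Real.log ((2 * n : ℕ) : ℝ) ^ E ≤ (2 * Real.log n) ^ E := pow_le_pow_left₀ g0.le g1 E
      have g3 : (n : ℝ) / Real.log n ^ (E + 1) ≤ ((2 * n : ℕ) : ℝ) / Real.log ((2 * n : ℕ) : ℝ) ^ E := by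
        rw [div_le_div_iff₀ (by positivity) (by positivity)]
        push_cast at g2 ⊢
        calc (n : ℝ) * Real.log (2 * n) ^ E ≤ n * (2 * Real.log n) ^ E := mul_le_mul_of_nonneg_left g2 (by linarith)
          _ = n * (2 ^ E * Real.log n ^ E) := by rw [mul_pow]
          _ ≤ n * (Real.log n * Real.log n ^ E) := by
              apply mul_le_mul_of_nonneg_left _ (by linarith)
              apply mul_le_mul_of_nonneg_right _ (by positivity)
              linarith
          _ = 1 * n * Real.log n ^ (E + 1) := by ring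
          _ ≤ 2 * n * Real.log n ^ (E + 1) := by gcongr; norm_num
      exact g3.trans (hD3.trans (by exact_mod_cast reps_le D n))
  have h2 : (((Icc 1 X).filter (fun n : ℕ => ¬ Rich m C (E + 1) n)).card : ℝ) ≤
      n0 + (((Icc 1 (2 * X)).filter (fun n => Even n ∧ ¬ Pool.Agent.L0h42.CP.PG m C E n)).card : ℝ) := by
    exact_mod_cast hsub
  have h3 : (n0 : ℝ) ≤ X / C := by
    rw [le_div_iff₀ (by linarith)]
    have : ((C * n0 : ℕ) : ℝ) ≤ X := by exact_mod_cast hX3
    push_cast at this
    linarith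
  have h4 : (2 * κ + 1) / C * X = X / C + κ / C * ((2 * X : ℕ) : ℝ) := by push_cast; ring
  rw [h4]
  linarith

end Pool.Agent.Results.MP_967f73_nt.SimultaneousSolutions
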