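import Pool.Agent.L0h44.AS.ArbX
import Pool.Agent.L0h44.AS.ArbS

/-!
# Solutions `x` of the totient system which belong to an arbitrary set

Let `X` be ANY set of at least `N / (log N) ^ B` positive integers `x ≤ N`.  Then at least
`c N / (log log (16 N / |X|)) ^ 2` of the integers `n` in `(N, 2 N]` have at least
`c (log N) ^ (-2) ∑_{x ∈ X} x / φ(x)` solutions `x ∈ X` of the system
`φ(n - x) + 1 = n - x`, `φ(n + x) + 1 = n + x`; the order `N / (log log (16 N / |X|)) ^ 2` is best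
possible for every size of the set.
-/

set_option autoImplicit false

namespace Pool.Agent.Results.MP_967f73_nt.SolutionsInArbitrarySets

open Finset

/-- `x` is a solution of the system for `n` (with `x < n`, so that `n - x ≥ 1`). -/
def IsSol (n x : ℕ) : Prop :=
  x < n ∧ Nat.totient (n - x) + 1 = n - x ∧ Nat.totient (n + x) + 1 = n + x

open Classical in
/-- The number of the solutions `x ∈ X` of the system for `n`. -/
noncomputable def numSol (X : Finset ℕ) (n : ℕ) : ℕ := (X.filter (fun x => IsSol n x)).card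

lemma tot_iff (p : ℕ) (hp : 0 < p) : Nat.totient p + 1 = p ↔ p.Prime := by
  constructor
  · intro h
    have h1 : Nat.totient p = p - 1 := by omega
    exact (Nat.totient_eq_iff_prime hp).1 h1
  · intro h
    rw [Nat.totient_prime h]
    have := h.pos
    omega

open Pool.Agent.L0h44.AS in
lemma sol_iff (n x : ℕ) (h : x < n) : IsSol n x ↔ pr x n := by
  unfold IsSol pr
  have h1 : Nat.dist x n = n - x := by rw [Nat.dist]; omega
  rw [h1, tot_iff (n - x) (by omega), tot_iff (n + x) (by omega), add_comm x n]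
  constructor
  · rintro ⟨_, a, b⟩; exact ⟨b, a⟩
  · rintro ⟨a, b⟩; exact ⟨h, b, a⟩

open Pool.Agent.L0h44.AS in
lemma numSol_eq (X : Finset ℕ) (N n : ℕ) (hX : X ⊆ Icc 1 N) (hn : N < n) :
    numSol X n = (X.filter (fun x => pr x n)).card := by
  classical
  unfold numSol
  congr 1
  apply filter_congr
  intro x hx
  have := mem_Icc.1 (hX hx)
  exact sol_iff n x (by omega)

open Classical in
/-- **Solutions in an arbitrary set.** -/
theorem result : ∃ c C : ℝ, 0 < c ∧ 0 < C ∧ ∀ B : ℕ, ∃ N₀ : ℕ, ∀ N : ℕ, N₀ ≤ N →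
    (∀ X : Finset ℕ, X ⊆ Icc 1 N → (N : ℝ) / Real.log N ^ B ≤ X.card →
      c * (N / Real.log (Real.log (16 * N / X.card)) ^ 2) ≤
        ((Ioc N (2 * N)).filter (fun n =>
          c * ((∑ x ∈ X, (x : ℝ) / Nat.totient x) / Real.log N ^ 2) ≤ (numSol X n : ℝ))).card) ∧
    (∀ α : ℝ, 1 / Real.log N ^ B ≤ α → α ≤ 1 →
      ∃ X : Finset ℕ, X ⊆ Icc 1 N ∧ α * N ≤ X.card ∧
        (((Ioc N (2 * N)).filter (fun n => ∃ x ∈ X, IsSol n x)).card : ℝ) ≤
          C * (N / Real.log (Real.log (16 / α)) ^ 2)) := by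
  obtain ⟨c, hc, hlow⟩ := Pool.Agent.L0h44.AS.arb_lower
  obtain ⟨C, hC, hup⟩ := Pool.Agent.L0h44.AS.arb_sharp
  refine ⟨c, C, hc, hC, fun B => ?_⟩
  obtain ⟨N1, h1⟩ := hlow B
  obtain ⟨N2, h2⟩ := hup B
  refine ⟨max N1 N2, fun N hN => ⟨?_, ?_⟩⟩
  · intro X hX hXc
    have h3 := h1 N (le_trans (le_max_left _ _) hN) X hX hXc
    refine h3.trans (le_of_eq ?_)
    congr 2
    apply filter_congr
    intro n hn
    rw [mem_Ioc] at hn
    rw [numSol_eq X N n hX hn.1]
    rfl
  · intro α hα hα1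
    obtain ⟨X, hX, hXc, h3⟩ := h2 N (le_trans (le_max_right _ _) hN) α hα hα1
    refine ⟨X, hX, hXc, h3 _ (filter_subset _ _) ?_⟩
    intro n hn
    rw [mem_filter, mem_Ioc] at hn
    obtain ⟨x, hx, hs⟩ := hn.2
    exact ⟨x, hx, (sol_iff n x hs.1).1 hs⟩

end Pool.Agent.Results.MP_967f73_nt.SolutionsInArbitrarySets
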