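import Pool.Agent.L0h44.AS.TF8
import Pool.Agent.L0h44.AS.TF10

/-!
# Solutions `x` of the totient system among the values of a polynomial

Let `f` be a polynomial of degree `d ≥ 2` with integer coefficients and positive leading coefficient (for
instance `x = y ^ d`), and let `X` be ANY set of at least `N ^ (1 / d) / (log N) ^ B` values `x = f(y)` of `f` in
`[1, N]`.  Then at least `c N / (log log (64 N ^ (1 / d) / |X|)) ^ 2` of the integers `n` in `(N, 2 N]` have at
least `c (log N) ^ (-2) ∑_{x ∈ X} x / φ(x)` solutions `x ∈ X` of the system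
`φ(n - x) + 1 = n - x`, `φ(n + x) + 1 = n + x`.  In particular a positive proportion of the integers `n` have
`≫ n ^ (1 / d) / (log n) ^ 2` solutions `x` which are perfect `d`-th powers.  The order
`N / (log log (64 N ^ (1 / d) / |X|)) ^ 2` is best possible for every `f` and for every size of the set.
-/

set_option autoImplicit false

namespace Pool.Agent.Results.MP_967f73_nt.SolutionsPolynomialValues

open Finset Polynomial

/-- `x` is a solution of the system for `n` (with `x < n`, so that `n - x ≥ 1`). -/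
def IsSol (n x : ℕ) : Prop :=
  x < n ∧ Nat.totient (n - x) + 1 = n - x ∧ Nat.totient (n + x) + 1 = n + x

open Classical in
/-- The number of the solutions `x ∈ X` of the system for `n`. -/
noncomputable def numSol (X : Finset ℕ) (n : ℕ) : ℕ := (X.filter (fun x => IsSol n x)).card

lemma tot_iff (p : ℕ) (hp : 0 < p) : Nat.totient p + 1 = p ↔ p.Prime := by
  constructor
  · intro h
    have h1 : Nat.totient p = p - 1 := by omega
    exact (Nat.totient_eq_iff_prime hp).1 h1
  · intro h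
    rw [Nat.totient_prime h]
    have := h.pos
    omega

open Pool.Agent.L0h44.AS in
lemma sol_iff (n x : ℕ) (h : x < n) : IsSol n x ↔ pr x n := by
  unfold IsSol pr
  have h1 : Nat.dist x n = n - x := by rw [Nat.dist]; omega
  rw [h1, tot_iff (n - x) (by omega), tot_iff (n + x) (by omega), add_comm x n]
  constructor
  · rintro ⟨_, a, b⟩; exact ⟨b, a⟩
  · rintro ⟨a, b⟩; exact ⟨h, b, a⟩

open Pool.Agent.L0h44.AS in
lemma numSol_eq (X : Finset ℕ) (N n : ℕ) (hX : X ⊆ Icc 1 N) (hn : N < n) :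
    numSol X n = (X.filter (fun x => pr x n)).card := by
  classical
  unfold numSol
  congr 1
  apply filter_congr
  intro x hx
  have := mem_Icc.1 (hX hx)
  exact sol_iff n x (by omega)

open Classical in
/-- **Solutions among the values of a polynomial.** -/
theorem result (f : ℤ[X]) (hd : 2 ≤ f.natDegree) (hl : 0 < f.leadingCoeff) :
    ∃ c C : ℝ, 0 < c ∧ 0 < C ∧ ∀ B : ℕ, ∃ N₀ : ℕ, ∀ N : ℕ, N₀ ≤ N →
    (∀ X : Finset ℕ, X ⊆ Icc 1 N → (∀ x ∈ X, ∃ y : ℕ, f.eval (y : ℤ) = x) →
      (N : ℝ) ^ (1 / (f.natDegree : ℝ)) / Real.log N ^ B ≤ X.card →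
      c * (N / Real.log (Real.log (64 * (N : ℝ) ^ (1 / (f.natDegree : ℝ)) / X.card)) ^ 2) ≤
        ((Ioc N (2 * N)).filter (fun n =>
          c * ((∑ x ∈ X, (x : ℝ) / Nat.totient x) / Real.log N ^ 2) ≤ (numSol X n : ℝ))).card) ∧
    (∀ α : ℝ, 1 / Real.log N ^ B ≤ α → α ≤ 1 →
      ∃ X : Finset ℕ, X ⊆ Icc 1 N ∧ (∀ x ∈ X, ∃ y : ℕ, f.eval (y : ℤ) = x) ∧
        c * (α * (N : ℝ) ^ (1 / (f.natDegree : ℝ))) ≤ X.card ∧
        (((Ioc N (2 * N)).filter (fun n => ∃ x ∈ X, IsSol n x)).card : ℝ) ≤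
          C * (N / Real.log (Real.log (64 / α)) ^ 2)) := by
  obtain ⟨c1, hc1, hlow⟩ := Pool.Agent.L0h44.AS.poly_lower f (by omega) hl
  obtain ⟨c2, C, hc2, hC, hup⟩ := Pool.Agent.L0h44.AS.poly_sharp f (by omega) hl
  refine ⟨min c1 c2, C, by positivity, hC, fun B => ?_⟩
  obtain ⟨N1, h1⟩ := hlow B
  obtain ⟨N2, h2⟩ := hup B
  have hm1 : min c1 c2 ≤ c1 := min_le_left _ _
  have hm2 : min c1 c2 ≤ c2 := min_le_right _ _
  refine ⟨max (max N1 N2) 3, fun N hN => ⟨?_, ?_⟩⟩
  · intro X hX hXf hXc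
    have h3 := h1 N (le_trans (le_trans (le_max_left _ _) (le_max_left _ _)) hN) X hX hXf hXc
    have hq : 0 ≤ (N : ℝ) / Real.log (Real.log (64 * (N : ℝ) ^ (1 / (f.natDegree : ℝ)) / X.card)) ^ 2 := by positivity
    refine (mul_le_mul_of_nonneg_right hm1 hq).trans (h3.trans ?_)
    have hsub : (Ioc N (2 * N)).filter (fun n => c1 * ((∑ x ∈ X, Pool.Agent.L0h44.AS.FF x) / Real.log N ^ 2) ≤
        ((X.filter (fun x => Pool.Agent.L0h44.AS.pr x n)).card : ℝ)) ⊆ (Ioc N (2 * N)).filter (fun n =>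
          min c1 c2 * ((∑ x ∈ X, (x : ℝ) / Nat.totient x) / Real.log N ^ 2) ≤ (numSol X n : ℝ)) := by
      intro n hn
      rw [mem_filter] at hn ⊢
      have hnI := mem_Ioc.1 hn.1
      refine ⟨hn.1, ?_⟩
      rw [numSol_eq X N n hX hnI.1]
      refine le_trans ?_ hn.2
      apply mul_le_mul_of_nonneg_right hm1
      apply div_nonneg _ (by positivity)
      exact sum_nonneg (fun x _ => by positivity)
    exact_mod_cast card_le_card hsub
  · intro α hα hα1
    have hN2 : N2 ≤ N := le_trans (le_trans (le_max_right _ _) (le_max_left _ _)) hN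
    have hN3 : 3 ≤ N := le_trans (le_max_right _ _) hN
    obtain ⟨X, hX, hXf, hXc, h3⟩ := h2 N hN2 α hα hα1
    refine ⟨X, hX, hXf, ?_, h3 _ (filter_subset _ _) ?_⟩
    · refine le_trans ?_ hXc
      have hL : 0 < Real.log N := Real.log_pos (by exact_mod_cast (by omega : 1 < N))
      have hα0 : 0 < α := lt_of_lt_of_le (by positivity) hα
      exact mul_le_mul_of_nonneg_right hm2 (by positivity)
    · intro n hn
      rw [mem_filter, mem_Ioc] at hn
      obtain ⟨x, hx, hs⟩ := hn.2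
      exact ⟨x, hx, (sol_iff n x hs.1).1 hs⟩

end Pool.Agent.Results.MP_967f73_nt.SolutionsPolynomialValues
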